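import Pool.Agent.helper17.SG.SpecB

/-!
# sg:B18: factorisation of the kernel in half plane coordinates
-/

set_option autoImplicit false

open MeasureTheory Set Metric Filter Topology
open scoped ENNReal NNReal ComplexConjugate

namespace Pool.Agent.SG

/-- `|1 - z̄ w| = |h z - conj (h w)| |u+z||u+w|/2`, in a form with the two quotients. -/
lemma B18_id (u z w : ℂ) (hu : ‖u‖ = 1) (hz : ‖z‖ < 1) (hw : ‖w‖ < 1) :
    ‖1 - conj z * w‖ = ‖(u - z) / (u + z) + conj ((u - w) / (u + w))‖ * (‖u + z‖ * ‖u + w‖) / 2 := by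
  have h1 : u + z ≠ 0 := by
    intro h
    have : u = -z := by linear_combination h
    rw [this, norm_neg] at hu
    linarith
  have h2 : u + w ≠ 0 := by
    intro h
    have : u = -w := by linear_combination h
    rw [this, norm_neg] at hu
    linarith
  have h3 : conj (u + w) ≠ 0 := by
    intro h
    exact h2 ((map_eq_zero _).1 h)
  have huu : u * conj u = 1 := by
    rw [Complex.mul_conj, Complex.normSq_eq_norm_sq, hu]; norm_num
  have key : ((u - z) / (u + z) + conj ((u - w) / (u + w))) * ((u + z) * conj (u + w)) =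
      2 * (1 - z * conj w) := by
    rw [map_div₀]
    field_simp
    simp only [map_sub, map_add]
    linear_combination 2 * huu
  have h4 : ‖(u - z) / (u + z) + conj ((u - w) / (u + w))‖ * (‖u + z‖ * ‖u + w‖) =
      2 * ‖1 - z * conj w‖ := by
    rw [← Complex.norm_conj (u + w), ← norm_mul, ← norm_mul, key, norm_mul]
    norm_num
  have h5 : ‖1 - conj z * w‖ = ‖1 - z * conj w‖ := by
    rw [← Complex.norm_conj (1 - z * conj w)]
    simp
  rw [h4, h5]
  ring

theorem B18 (h03 : B03_stmt) : B18_stmt := by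
  intro Γ _ A u hu
  obtain ⟨hk, -, hp1, hp, -, -, -, hkk, -⟩ := h03 Γ A
  -- basic bounds
  have hpos : ∀ x, 0 < ‖u + A.pt x‖ := by
    intro x
    rw [norm_pos_iff]
    intro h
    have h' : u = -A.pt x := by linear_combination h
    have := hp x
    rw [h', norm_neg] at hu
    linarith
  have hle2 : ∀ x, ‖u + A.pt x‖ ≤ 2 := fun x => by
    have := norm_add_le u (A.pt x)
    linarith [hp x]
  have hge1 : ∀ x, A.Hu u x ≤ 1 → 1 ≤ ‖u + A.pt x‖ := by
    intro x hx
    unfold DiscRep.Hu at hx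
    rw [div_le_one (hpos x)] at hx
    have h2 : ‖(2 : ℂ) * u‖ ≤ ‖u - A.pt x‖ + ‖u + A.pt x‖ := by
      calc ‖(2 : ℂ) * u‖ = ‖(u - A.pt x) + (u + A.pt x)‖ := by congr 1; ring
        _ ≤ _ := norm_add_le _ _
    rw [norm_mul, hu] at h2
    norm_num at h2
    linarith
  have hH0 : ∀ x, 0 ≤ A.Hu u x := fun x => div_nonneg (norm_nonneg _) (norm_nonneg _)
  have hHn : ∀ x, ‖(u - A.pt x) / (u + A.pt x)‖ = A.Hu u x := fun x => norm_div _ _
  have hHc : ∀ x, ‖conj ((u - A.pt x) / (u + A.pt x))‖ = A.Hu u x := fun x => by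
    rw [Complex.norm_conj, hHn]
  have hid : ∀ x y, ‖1 - conj (A.pt x) * A.pt y‖ =
      ‖(u - A.pt x) / (u + A.pt x) + conj ((u - A.pt y) / (u + A.pt y))‖ *
        (‖u + A.pt x‖ * ‖u + A.pt y‖) / 2 := fun x y => B18_id u _ _ hu (hp x) (hp y)
  refine ⟨?_, ?_, ?_, ?_⟩
  · intro x y hx hy
    have hy1 : A.Hu u y ≤ 1 := by linarith [hH0 x]
    have h1 : A.Hu u x / 2 ≤
        ‖(u - A.pt x) / (u + A.pt x) + conj ((u - A.pt y) / (u + A.pt y))‖ := by
      have := norm_sub_le_norm_add ((u - A.pt x) / (u + A.pt x)) (conj ((u - A.pt y) / (u + A.pt y)))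
      rw [hHn, hHc] at this
      linarith
    have h2 : 1 ≤ ‖u + A.pt x‖ * ‖u + A.pt y‖ :=
      one_le_mul_of_one_le_of_one_le (hge1 x hx) (hge1 y hy1)
    have h3 : A.Hu u x / 4 ≤ ‖1 - conj (A.pt x) * A.pt y‖ := by
      rw [hid]
      have : A.Hu u x / 2 * 1 ≤
          ‖(u - A.pt x) / (u + A.pt x) + conj ((u - A.pt y) / (u + A.pt y))‖ *
          (‖u + A.pt x‖ * ‖u + A.pt y‖) :=
        mul_le_mul h1 h2 zero_le_one (norm_nonneg _)
      linarith
    have h4 : (A.Hu u x / 4) ^ 2 ≤ ‖1 - conj (A.pt x) * A.pt y‖ ^ 2 :=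
      pow_le_pow_left₀ (by linarith [hH0 x]) h3 2
    have h5 := hkk x y
    have h6 := mul_le_mul_of_nonneg_left h4 (hk (x⁻¹ * y)).1.le
    rw [h5] at h6
    nlinarith
  · intro x y hx hy
    have h1 : ‖(u - A.pt x) / (u + A.pt x) + conj ((u - A.pt y) / (u + A.pt y))‖ ≤
        2 * A.Hu u x := by
      have := norm_add_le ((u - A.pt x) / (u + A.pt x)) (conj ((u - A.pt y) / (u + A.pt y)))
      rw [hHn, hHc] at this
      linarith
    have h2 : ‖u + A.pt x‖ * ‖u + A.pt y‖ ≤ 2 * 2 :=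
      mul_le_mul (hle2 x) (hle2 y) (norm_nonneg _) (by norm_num)
    have h3 : ‖1 - conj (A.pt x) * A.pt y‖ ≤ 4 * A.Hu u x := by
      rw [hid]
      have := mul_le_mul h1 h2 (by positivity) (by linarith [hH0 x])
      linarith
    have h4 : ‖1 - conj (A.pt x) * A.pt y‖ ^ 2 ≤ (4 * A.Hu u x) ^ 2 :=
      pow_le_pow_left₀ (norm_nonneg _) h3 2
    have h5 := hkk x y
    have h6 := mul_le_mul_of_nonneg_left h4 (hk (x⁻¹ * y)).1.le
    rw [h5] at h6
    nlinarith
  · intro x hx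
    have h1 := hge1 x hx
    have h2 : ‖u - A.pt x‖ = A.Hu u x * ‖u + A.pt x‖ := by
      unfold DiscRep.Hu
      rw [div_mul_cancel₀ _ (hpos x).ne']
    have h3 : ‖u - A.pt x‖ ≤ 2 * A.Hu u x := by
      rw [h2]
      nlinarith [hH0 x, hle2 x]
    refine ⟨?_, h1, h3, ?_⟩
    · have h4 : 1 - ‖A.pt x‖ ≤ ‖u - A.pt x‖ := by
        have := norm_sub_norm_le u (A.pt x)
        rw [hu] at this
        exact this
      have h5 : A.kk x = (1 - ‖A.pt x‖) * (1 + ‖A.pt x‖) := by unfold DiscRep.kk; ring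
      rw [h5]
      nlinarith [hp x, norm_nonneg (A.pt x)]
    · rw [h2]
      nlinarith [hH0 x]
  · unfold DiscRep.Hu
    rw [hp1]
    simp [hu]

end Pool.Agent.SG
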