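import Pool.Agent.helper56.SG.SpecG

/-!
# sg:ANT: antisymmetry
-/

set_option autoImplicit false

open MeasureTheory Set Metric Filter Topology
open scoped ENNReal NNReal ComplexConjugate
open Pool.Agent.SG

noncomputable section

namespace Pool.Agent.SGG

theorem ANT (hACT : ACT_stmt) (hMOB : MOB_stmt) (hPPF : PPF_stmt) (hHYC : HYC_stmt)
    (hKNB : KNB_stmt) (hANA : ANA_stmt) (hANB : ANB_stmt) : ANT_stmt := by
  intro Γ _ A hD χ r hχ φ hφ u hu hE t ht ht1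
  obtain ⟨S, hS, hana⟩ := hANA Γ A hD t ht ht1 r hχ.r0 hχ.r1
  obtain ⟨hNN, -⟩ := hKNB t ht ht1
  obtain ⟨hpp, -, -, hppc, -⟩ := hPPF
  set Φ : ℂ → ℂ → ℝ := fun x y => ∑ γ ∈ S, ker t x (A.act γ y) * (u y + φ γ - u x) with hΦ
  have hact : ∀ γ, ∀ z ∈ ball (0 : ℂ) 1, A.act γ z ∈ ball (0 : ℂ) 1 := fun γ z hz =>
    ((hACT Γ A z hz).1 γ).2.1
  have hiso : ∀ γ, IsoM (A.a γ) (A.b γ) := fun γ =>
    ((hACT Γ A 0 (by simp)).1 γ).1
  have hactc : ∀ γ, ContinuousOn (A.act γ) (ball (0 : ℂ) 1) := fun γ z hz =>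
    ((hMOB _ _ (hiso γ)).2.2.2.2.2.1 z hz).continuousAt.continuousWithinAt
  have hinv : ∀ γ, φ γ⁻¹ = -φ γ := by
    intro γ
    have h1 := hφ γ γ⁻¹
    have h2 := hφ 1 1
    rw [mul_inv_cancel] at h1
    rw [mul_one] at h2
    linarith
  -- continuity
  have hcont : ContinuousOn (fun q : ℂ × ℂ => Φ q.1 q.2) (ball (0 : ℂ) 1 ×ˢ ball (0 : ℂ) 1) := by
    simp only [hΦ]
    refine continuousOn_finsetSum _ fun γ _ => ContinuousOn.mul ?_ ?_
    · unfold ker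
      have h0 : Continuous fun s : ℝ => max 0 (s - t) := by fun_prop
      refine h0.comp_continuousOn ?_
      have h1 : ContinuousOn (fun q : ℂ × ℂ => (q.1, A.act γ q.2))
          (ball (0 : ℂ) 1 ×ˢ ball (0 : ℂ) 1) :=
        continuousOn_fst.prodMk ((hactc γ).comp continuousOn_snd fun q hq => hq.2)
      exact hppc.comp h1 fun q hq => ⟨hq.1, hact γ _ hq.2⟩
    · exact ((hu.comp continuousOn_snd fun q hq => hq.2).add continuousOn_const).sub
        (hu.comp continuousOn_fst fun q hq => hq.1)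
  -- antisymmetry
  have hanti : ∀ x ∈ ball (0 : ℂ) 1, ∀ y ∈ ball (0 : ℂ) 1, Φ y x = -Φ x y := by
    intro x hx y hy
    simp only [hΦ]
    rw [← Finset.sum_neg_distrib]
    refine Finset.sum_nbij' (fun γ => γ⁻¹) (fun γ => γ⁻¹) (fun γ hγ => hS γ hγ)
      (fun γ hγ => hS γ hγ) (fun γ _ => inv_inv γ) (fun γ _ => inv_inv γ) ?_
    intro γ _
    have h1 : pp y (A.act γ x) = pp x (A.act γ⁻¹ y) := by
      have h2 := (hMOB _ _ (hiso γ⁻¹)).2.2.2.2.2.2.2.1 y hy (A.act γ x) (hact γ x hx)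
      have h3 : mob (A.a γ⁻¹) (A.b γ⁻¹) (A.act γ x) = x := ((hACT Γ A x hx).1 γ).2.2.1
      rw [h3] at h2
      rw [← h2]
      exact (hpp _ (hact γ⁻¹ y hy) x hx).2.2.1
    unfold ker
    rw [h1, hinv]
    ring
  have hfin := hANB Γ A χ r hχ Φ hcont hanti
  have hae : ∀ᵐ x ∂hyp, x ∈ ball (0 : ℂ) 1 := by
    rw [ae_iff]
    exact hHYC.1
  have h1 : ∫ x, χ x * (KK t u x - u x) ∂hyp =
      ∫ x, (NN t)⁻¹ * (χ x * (∫ y, χ y * Φ x y ∂hyp)) ∂hyp := by
    refine integral_congr_ae ?_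
    filter_upwards [hae] with x hx
    rcases le_or_gt ‖x‖ r with h | h
    · have := hana χ hχ φ hφ u hu hE x h
      change NN t * (KK t u x - u x) = ∫ y, χ y * Φ x y ∂hyp at this
      rw [← this]
      field_simp
    · rw [hχ.supp x hx h]
      ring
  rw [h1, integral_const_mul, hfin, mul_zero]

end Pool.Agent.SGG
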