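import Pool.Agent.helper56.SG.SpecG

/-!
# sg:DOE: contraction of the oscillation
-/

set_option autoImplicit false

open MeasureTheory Set Metric Filter Topology
open scoped ENNReal NNReal ComplexConjugate
open Pool.Agent.SG

noncomputable section

namespace Pool.Agent.SGG

/-- the part of the kernel common to all points of a compact set -/
def DOE_eta (c r : ℝ) (z : ℂ) : ℝ := c * max 0 (r - ‖z‖)

theorem DOE (hACT : ACT_stmt) (hMOB : MOB_stmt) (hPPF : PPF_stmt) (hHYC : HYC_stmt)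
    (hKNB : KNB_stmt) (hKLI : KLI_stmt) (hKEQ : KEQ_stmt) : DOE_stmt := by
  intro Γ _ A hco
  obtain ⟨r₀, hr₀, hcoc⟩ := hco
  obtain ⟨hpp, -, -, -, -⟩ := hPPF
  obtain ⟨hH0, -, -, -, -, hHint, hHpos⟩ := hHYC
  have hae : ∀ᵐ x ∂hyp, x ∈ ball (0 : ℂ) 1 := by
    rw [ae_iff]
    exact hH0
  set r : ℝ := max r₀ (1 / 2) with hr
  have hr1 : r < 1 := max_lt hr₀ (by norm_num)
  have hr2 : 1 / 2 ≤ r := le_max_right _ _
  have hr3 : r₀ ≤ r := le_max_left _ _
  set c : ℝ := (1 - r ^ 2) ^ 2 / 8 with hc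
  have h1r : 0 < 1 - r ^ 2 := by nlinarith
  have hc0 : 0 < c := by positivity
  have hc1 : c < 1 := by
    have : (1 - r ^ 2) ^ 2 ≤ 1 := by
      have h2 : 1 - r ^ 2 ≤ 1 := by nlinarith [sq_nonneg r]
      nlinarith
    rw [hc]
    linarith
  obtain ⟨hNN, hker⟩ := hKNB c hc0 hc1
  set η : ℂ → ℝ := DOE_eta c r with hη
  have hη0 : ∀ z, 0 ≤ η z := fun z => mul_nonneg hc0.le (le_max_left _ _)
  have hηcb : CB η := by
    apply Continuous.continuousOn
    rw [hη]
    unfold DOE_eta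
    fun_prop
  have hηz : ∀ z, r < ‖z‖ → η z = 0 := by
    intro z hz
    simp only [hη, DOE_eta]
    rw [max_eq_left (by linarith), mul_zero]
  have hηle : ∀ z, η z ≤ c := by
    intro z
    simp only [hη, DOE_eta]
    have : max 0 (r - ‖z‖) ≤ 1 := max_le (by norm_num) (by linarith [norm_nonneg z])
    nlinarith
  have hηint : ∀ v : ℂ → ℝ, CB v → Integrable (fun z => η z * v z) hyp := by
    intro v hv
    refine hHint _ (hηcb.mul hv) r hr1 ?_
    intro z _ hz
    rw [hηz z hz, zero_mul]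
  have hηi : Integrable η hyp := hHint _ hηcb r hr1 fun z _ hz => hηz z hz
  -- the kernel dominates `η`
  have hdom : ∀ x : ℂ, ‖x‖ ≤ r → ∀ z ∈ ball (0 : ℂ) 1, η z ≤ ker c x z := by
    intro x hx z hz
    rcases le_or_gt ‖z‖ r with h | h
    · refine (hηle z).trans ?_
      have hx1 : x ∈ ball (0 : ℂ) 1 := by
        rw [mem_ball_zero_iff]; linarith
      have h1 := (hpp x hx1 z hz).2.2.2
      have h2 : 1 - r ^ 2 ≤ 1 - ‖x‖ ^ 2 := by nlinarith [norm_nonneg x]
      have h3 : 1 - r ^ 2 ≤ 1 - ‖z‖ ^ 2 := by nlinarith [norm_nonneg z]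
      have h4 : (1 - r ^ 2) * (1 - r ^ 2) ≤ (1 - ‖x‖ ^ 2) * (1 - ‖z‖ ^ 2) :=
        mul_le_mul h2 h3 h1r.le (by linarith)
      have h5 : 2 * c ≤ pp x z := by
        rw [hc]
        nlinarith
      unfold ker
      exact le_max_of_le_right (by linarith)
    · rw [hηz z h]
      exact le_max_left _ _
  set h : ℝ := ∫ z, η z ∂hyp with hh
  have hh0 : 0 < h := by
    rcases (integral_nonneg hη0 : 0 ≤ ∫ z, η z ∂hyp).lt_or_eq with h1 | h1
    · exact h1
    · exfalso
      have h2 := hHpos η hηcb (fun z _ => hη0 z) hηi h1.symm 0 (by simp)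
      simp only [hη, DOE_eta, norm_zero, sub_zero] at h2
      rw [max_eq_right (by linarith)] at h2
      have : 0 < c * r := mul_pos hc0 (by linarith)
      linarith
  -- the integrals
  have hone : ∀ x ∈ ball (0 : ℂ) 1, Integrable (fun z => ker c x z) hyp := by
    intro x hx
    have := (hker x hx).2.2 (fun _ => 1) continuousOn_const
    simpa using this
  have hhN : h ≤ NN c := by
    refine integral_mono_ae hηi (hone 0 (by simp)) ?_
    filter_upwards [hae] with z hz
    exact hdom 0 (by simp; linarith) z hz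
  have hmass : ∀ x ∈ ball (0 : ℂ) 1, ∫ z, (ker c x z - η z) ∂hyp = NN c - h := by
    intro x hx
    rw [integral_sub (hone x hx) hηi, (hker x hx).2.1]
  have hsplit : ∀ v : ℂ → ℝ, CB v → ∀ x ∈ ball (0 : ℂ) 1,
      ∫ z, ker c x z * v z ∂hyp = ∫ z, (ker c x z - η z) * v z ∂hyp + ∫ z, η z * v z ∂hyp := by
    intro v hv x hx
    have h1 : Integrable (fun z => (ker c x z - η z) * v z) hyp := by
      have := ((hker x hx).2.2 v hv).sub (hηint v hv)
      refine this.congr (Filter.Eventually.of_forall fun z => ?_)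
      simp only [Pi.sub_apply]
      ring
    rw [← integral_add h1 (hηint v hv)]
    refine integral_congr_ae (Filter.Eventually.of_forall fun z => ?_)
    simp only
    ring
  refine ⟨c, h / NN c, hc0, hc1, div_pos hh0 hNN, (div_le_one hNN).2 hhN, ?_⟩
  intro v hv hinv M hM
  -- the supremum
  set s : ℝ := sSup (v '' ball (0 : ℂ) 1) with hs
  have hbdd : BddAbove (v '' ball (0 : ℂ) 1) := by
    refine ⟨v 0 + M, ?_⟩
    rintro _ ⟨z, hz, rfl⟩
    have := hM z hz 0 (by simp)
    linarith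
  have hs1 : ∀ z ∈ ball (0 : ℂ) 1, v z ≤ s := fun z hz => le_csSup hbdd ⟨z, hz, rfl⟩
  have hs2 : ∀ z ∈ ball (0 : ℂ) 1, s - M ≤ v z := by
    intro z hz
    have : s ≤ v z + M := by
      refine csSup_le ⟨v 0, 0, by simp, rfl⟩ ?_
      rintro _ ⟨w, hw, rfl⟩
      have := hM w hw z hz
      linarith
    linarith
  set V : ℝ := ∫ z, η z * v z ∂hyp with hV
  have hki : ∀ (w : ℂ → ℝ), CB w → ∀ x ∈ ball (0 : ℂ) 1,
      Integrable (fun z => (ker c x z - η z) * w z) hyp := by
    intro w hw x hx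
    have := ((hker x hx).2.2 w hw).sub (hηint w hw)
    refine this.congr (Filter.Eventually.of_forall fun z => ?_)
    simp only [Pi.sub_apply]
    ring
  have hup : ∀ x : ℂ, ‖x‖ ≤ r → NN c * KK c v x ≤ s * (NN c - h) + V := by
    intro x hx
    have hx1 : x ∈ ball (0 : ℂ) 1 := by
      rw [mem_ball_zero_iff]; linarith
    have h1 : NN c * KK c v x = ∫ z, ker c x z * v z ∂hyp := by
      unfold KK
      rw [← mul_assoc, mul_inv_cancel₀ hNN.ne', one_mul]
    rw [h1, hsplit v hv x hx1, ← hmass x hx1, ← integral_const_mul]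
    refine add_le_add ?_ le_rfl
    refine integral_mono_ae (hki v hv x hx1) (((hone x hx1).sub hηi).const_mul s) ?_
    filter_upwards [hae] with z hz
    have h2 : 0 ≤ ker c x z - η z := sub_nonneg.2 (hdom x hx z hz)
    have := mul_le_mul_of_nonneg_left (hs1 z hz) h2
    linarith
  have hlow : ∀ x : ℂ, ‖x‖ ≤ r → (s - M) * (NN c - h) + V ≤ NN c * KK c v x := by
    intro x hx
    have hx1 : x ∈ ball (0 : ℂ) 1 := by
      rw [mem_ball_zero_iff]; linarith
    have h1 : NN c * KK c v x = ∫ z, ker c x z * v z ∂hyp := by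
      unfold KK
      rw [← mul_assoc, mul_inv_cancel₀ hNN.ne', one_mul]
    rw [h1, hsplit v hv x hx1, ← hmass x hx1, ← integral_const_mul]
    refine add_le_add ?_ le_rfl
    refine integral_mono_ae (((hone x hx1).sub hηi).const_mul (s - M)) (hki v hv x hx1) ?_
    filter_upwards [hae] with z hz
    have h2 : 0 ≤ ker c x z - η z := sub_nonneg.2 (hdom x hx z hz)
    have := mul_le_mul_of_nonneg_left (hs2 z hz) h2
    linarith
  -- invariance of `KK c v`
  have hKinv : ∀ γ, ∀ x ∈ ball (0 : ℂ) 1, KK c v (A.act γ x) = KK c v x := by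
    intro γ x hx
    have hiso : IsoM (A.a γ) (A.b γ) := ((hACT Γ A 0 (by simp)).1 γ).1
    have h1 := hKEQ c hc0 hc1 _ _ hiso v hv x hx
    have hm : ContinuousOn (mob (A.a γ) (A.b γ)) (ball (0 : ℂ) 1) := fun z hz =>
      ((hMOB _ _ hiso).2.2.2.2.2.1 z hz).continuousAt.continuousWithinAt
    have hcb : CB (fun y => v (mob (A.a γ) (A.b γ) y)) :=
      hv.comp hm fun z hz => (hMOB _ _ hiso).2.2.1 z hz
    have h2 := ((hKLI c hc0 hc1 x hx).2.1 _ _ hcb hv).2.2.2 fun y hy => hinv γ y hy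
    exact h1.trans h2
  intro x hx y hy
  obtain ⟨γ, hγ⟩ := hcoc x (by simpa using hx)
  obtain ⟨δ, hδ⟩ := hcoc y (by simpa using hy)
  have h1 := hup _ (hγ.trans hr3)
  have h2 := hlow _ (hδ.trans hr3)
  rw [hKinv γ x hx] at h1
  rw [hKinv δ y hy] at h2
  have h3 : NN c * (KK c v x - KK c v y) ≤ (NN c - h) * M := by linarith
  have h4 : KK c v x - KK c v y ≤ (NN c - h) * M / NN c := by
    rw [le_div_iff₀ hNN]
    linarith
  refine h4.trans (le_of_eq ?_)
  field_simp

end Pool.Agent.SGG
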