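import Pool.Agent.helper24.SG.SpecD

/-!
# sg:D08: exit decomposition of the stationary measure
-/

set_option autoImplicit false

open MeasureTheory Set Metric Filter Topology
open scoped ENNReal NNReal ComplexConjugate

namespace Pool.Agent.SG

/-- two sets which agree on the circle have the same `ν`-measure. -/
lemma D08_congr (ν : Measure ℂ) (hν : ν circᶜ = 0) (E F : Set ℂ)
    (h : ∀ z, ‖z‖ = 1 → (z ∈ E ↔ z ∈ F)) : ν E = ν F := by
  apply measure_congr
  have : ∀ᵐ z ∂ν, z ∈ circ := by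
    rw [ae_iff]
    exact hν
  filter_upwards [this] with z hz
  apply propext
  apply h z
  simpa [circ] using hz

/-- the mass of `act x ⁻¹' E` is a harmonic function of `x`. -/
lemma D08_harm (b1 : B01_stmt) (Γ : Type) [Group Γ] (A : DiscRep Γ) (W : Walk Γ) (ν : Measure ℂ)
    (hst : Stat A W ν) (E : Set ℂ) (hE : MeasurableSet E) :
    W.Harm fun x => ν (A.act x ⁻¹' E) := by
  obtain ⟨hle, -, -, -, hmul, -, -, hmeas, -, -⟩ := b1 Γ A
  intro x
  have h1 := congrArg (fun m : Measure ℂ => m (A.act x ⁻¹' E)) hst.stat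
  simp only [Measure.coe_finsetSum, Finset.sum_apply, Measure.smul_apply, smul_eq_mul] at h1
  refine h1.trans (Finset.sum_congr rfl fun s _ => ?_)
  rw [Measure.map_apply (hmeas s) (hmeas x hE)]
  congr 1
  apply D08_congr ν hst.supp
  intro z hz
  simp only [mem_preimage]
  rw [hmul x s z hz.le]

theorem D08 (p5 : P05_stmt) (p7 : P07_stmt) (b1 : B01_stmt) (b3 : B03_stmt) (b14 : B14_stmt) :
    D08_stmt := by
  intro Γ _ _ A W ν κ t hst hD hκ hS ht ht1
  obtain ⟨hk, hk1, -, -, -, -, -, -, hkk, -, -, -⟩ := b3 Γ A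
  set D : Set Γ := {x | t < A.kk x} with hDdef
  have hDf : D.Finite := by
    refine ((b14 Γ A).2.2 hD t ht).subset fun x hx => ?_
    have hx' : t < A.kk x := hx
    exact hx'.le
  have h1D : (1 : Γ) ∈ D := by
    change t < A.kk 1
    rw [hk1]; exact ht1
  refine ⟨fun w => W.exi D 1 w, (p7 Γ W D hDf).2 1, ?_, ?_⟩
  · intro w hw
    obtain ⟨hwD, hw'⟩ := (p5 Γ W D).2.2.1 1 w hw
    have h2 : ¬ t < A.kk w := hwD
    refine ⟨?_, not_lt.1 h2⟩
    rcases hw' with rfl | ⟨y, hy, s, hs, rfl⟩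
    · exact absurd h1D hwD
    · have h3 := hkk y s
      have h4 : t < A.kk y := hy
      have h5 := hS s hs
      have h6 : t * κ ≤ A.kk y * A.kk s := mul_le_mul h4.le h5 hκ.le (hk y).1.le
      linarith
  · intro E hE
    haveI := hst.prob
    have h1 := (p7 Γ W D hDf).1 (fun x => ν (A.act x ⁻¹' E)) (D08_harm b1 Γ A W ν hst E hE)
      ⟨1, ENNReal.one_ne_top, fun x => prob_le_one⟩ 1
    rw [← h1]
    apply D08_congr ν hst.supp
    intro z hz
    simp only [mem_preimage]
    rw [(b1 Γ A).2.2.2.1 z hz.le]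

end Pool.Agent.SG
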