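import Pool.Agent.helper17.SG.SpecR

/-!
# sg:R03: conical points for `lam`
-/

set_option autoImplicit false

open MeasureTheory Set Metric Filter Topology
open scoped ENNReal NNReal ComplexConjugate

namespace Pool.Agent.SG

theorem R03 (b5 : B05_stmt) (m11 : M11_stmt) (m12 : M12_stmt) (r1 : R01_stmt) : R03_stmt := by
  intro Γ _ A W ν hst hac
  have hp : IsProbabilityMeasure ν := hst.prob
  have hl : IsProbabilityMeasure lam := b5.1
  obtain ⟨M, hM, h⟩ := m11 Γ A W ν hst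
  refine ⟨M, hM, fun ε hε => ?_⟩
  obtain ⟨δ, hδ, hδE⟩ := (r1 lam ν hac (m12 Γ A W ν hst hac) ε hε).2
  obtain ⟨C, c, hC, hc, hmeas, hcon⟩ := h δ hδ
  exact ⟨C, c, hC, hc, hmeas, hδE _ hmeas.compl hcon⟩

end Pool.Agent.SG
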