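import Pool.Agent.helper80.SG.Spec

/-!
# Project sg: (MP_b5a345_ag), module CM1: one component without the simple points
-/

set_option autoImplicit false
set_option linter.unusedSectionVars false

namespace Pool.Agent.SG

open MvPolynomial Module Pool.Agent.SV

section

variable {E P J : Type} [AddCommGroup E] [Module ℂ E] [AddCommGroup P] [Module ℂ P]

/-- all the conditions of a configuration as one linear map -/
def CM1_B (Φ : Bool → P → E →ₗ[ℂ] (J → ℂ)) {a b : ℕ}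
    (Z : (Fin a → P) × (Fin b → P)) : E →ₗ[ℂ] ((Fin a ⊕ Fin b) × J → ℂ) where
  toFun v q := Sum.elim (fun i => Φ true (Z.1 i) v q.2) (fun i => Φ false (Z.2 i) v q.2) q.1
  map_add' v w := by
    funext q
    rcases q with ⟨i | i, j⟩ <;> simp
  map_smul' c v := by
    funext q
    rcases q with ⟨i | i, j⟩ <;> simp

theorem CM1_ker (Φ : Bool → P → E →ₗ[ℂ] (J → ℂ)) {a b : ℕ}
    (Z : (Fin a → P) × (Fin b → P)) :
    LinearMap.ker (CM1_B Φ Z) = Ker Φ Z.1 Z.2 := by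
  ext v
  rw [LinearMap.mem_ker, mem_Ker]
  constructor
  · intro h
    refine ⟨fun i => funext fun j => ?_, fun i => funext fun j => ?_⟩
    · exact congrFun h (Sum.inl i, j)
    · exact congrFun h (Sum.inr i, j)
  · rintro ⟨h1, h2⟩
    funext q
    rcases q with ⟨i | i, j⟩
    · exact congrFun (h1 i) j
    · exact congrFun (h2 i) j

theorem CM1_gen (hGKR : GKR_stmt) [Module.Finite ℂ E] [Finite J] (Φ : Bool → P → E →ₗ[ℂ] (J → ℂ))
    (hΦ : LinePoly Φ) (a b : ℕ) :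
    Gen (fun Z : (Fin a → P) × (Fin b → P) => finrank ℂ (Ker Φ Z.1 Z.2) ≤ dmin Φ a b) := by
  have h2 := hGKR (fun Z : (Fin a → P) × (Fin b → P) => CM1_B Φ Z) (fun Z₀ Z₁ v q => by
      rcases q with ⟨i | i, j⟩
      · exact hΦ true (Z₀.1 i) (Z₁.1 i) v j
      · exact hΦ false (Z₀.2 i) (Z₁.2 i) v j) (dmin Φ a b) (by
      obtain ⟨x, y, hxy⟩ := exists_dmin Φ a b
      refine ⟨(x, y), ?_⟩
      rw [CM1_ker, hxy])
  have h4 : (fun Z : (Fin a → P) × (Fin b → P) =>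
      finrank ℂ (LinearMap.ker (CM1_B Φ Z)) ≤ dmin Φ a b) =
      fun Z => finrank ℂ (Ker Φ Z.1 Z.2) ≤ dmin Φ a b := by
    funext Z
    rw [CM1_ker]
  rw [h4] at h2
  exact h2

theorem CM1_gen0 (hGKR : GKR_stmt) [Module.Finite ℂ E] [Finite J] (Φ : Bool → P → E →ₗ[ℂ] (J → ℂ))
    (hΦ : LinePoly Φ) (a b : ℕ) :
    Gen (fun Z : (Fin a → P) × (Fin b → P) =>
      finrank ℂ (Ker Φ Z.1 (fun i : Fin 0 => i.elim0)) ≤ dmin Φ a 0) := by
  have h2 := hGKR (fun Z : (Fin a → P) × (Fin b → P) => CM1_B Φ (Z.1, fun i : Fin 0 => i.elim0))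
    (fun Z₀ Z₁ v q => by
      rcases q with ⟨i | i, j⟩
      · exact hΦ true (Z₀.1 i) (Z₁.1 i) v j
      · exact i.elim0) (dmin Φ a 0) (by
      obtain ⟨x, y, hxy⟩ := exists_dmin Φ a 0
      refine ⟨(x, 0), ?_⟩
      rw [CM1_ker, ← hxy]
      have : y = fun i : Fin 0 => i.elim0 := funext fun i => i.elim0
      rw [this])
  have h4 : (fun Z : (Fin a → P) × (Fin b → P) =>
      finrank ℂ (LinearMap.ker (CM1_B Φ (Z.1, fun i : Fin 0 => i.elim0))) ≤ dmin Φ a 0) =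
      fun Z => finrank ℂ (Ker Φ Z.1 (fun i : Fin 0 => i.elim0)) ≤ dmin Φ a 0 := by
    funext Z
    rw [CM1_ker]
  rw [h4] at h2
  exact h2

end

theorem CM1 (hLPC : LPC_stmt) (hDFC : DFC_stmt) (hVSC : VSC_stmt) (hRKC : RKC_stmt)
    (hDMC : DMC_stmt) (hABW : ABW_stmt) (hEXT : EXT_stmt) (hKIM : KIM_stmt) (hRLS : RLS_stmt)
    (hRLH : RLH_stmt) (hRLT : RLT_stmt) (hCPL : CPL_stmt) (hONE : ONE_stmt) (hGKR : GKR_stmt)
    (hGAL : GAL_stmt) (hRKB : RKB_stmt) : CM1_stmt := by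
  intro ι κ _ _ _ _ c T d hcol hT1 hT2 hsum b g role hwin
  set D := Dk c Finset.univ d with hD
  have hD1 : 1 ≤ D := by
    rw [hD]
    unfold Dk
    omega
  have hd : ∃ k, 1 ≤ d k := by
    by_contra hcon
    push Not at hcon
    have : ∑ k ∈ T, d k = 0 := Finset.sum_eq_zero fun k _ => by
      have := hcon k
      omega
    omega
  set Φ := PhiC c T d with hΦ
  have hline : LinePoly Φ := hLPC c T d
  obtain ⟨hr1, hr2⟩ := hRKC c T d hcol
  -- the window lemma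
  have hdm := hABW Φ hline (hDFC c T d) (hVSC c T d hd) D (3 * D) b g hr1 hr2 hwin
  set N := cc Φ 0 0 with hN
  have hb0 : dmin Φ b 0 + b * D = finrank ℂ ↥(Sec c Finset.univ d) := by
    rw [hDMC c T d b]
    have hcol' : ∀ k, ∃ i ∈ (Finset.univ : Finset ι), c i = k := fun k => by
      obtain ⟨i, hi⟩ := hcol k
      exact ⟨i, Finset.mem_univ i, hi⟩
    rcases Nat.eq_zero_or_pos b with rfl | hb
    · rw [(hRKB (Phi1 c Finset.univ d)).1]
      omega
    · refine (hONE c Finset.univ d hcol' hd b).1 hb ?_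
      have h1 : (b - 1) * D ≤ b * D := Nat.mul_le_mul_right _ (Nat.sub_le _ _)
      have h2 : D * (D - 1) / 2 ≤ D * (D - 1) := Nat.div_le_self _ _
      have h3 : D * (D - 1) ≤ D * D := Nat.mul_le_mul_left _ (Nat.sub_le _ _)
      have h4 : D * D < (g + 3 * D) * (3 * D) := by nlinarith
      change (b - 1) * D + D * (D - 1) / 2 < _
      omega
  -- existence of good clusters
  have hex : ∀ ρ : Fin 4, ∃ Q, rk D ρ ≤ finrank ℂ (LinearMap.range (roleS c T d ρ Q)) := by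
    intro ρ
    obtain ⟨⟨Q1, h1⟩, Q0, h0⟩ := hRLT c T d hcol hT1 hT2 hsum
    obtain ⟨Q2, h2⟩ := hRLH c T d hcol hT1 hT2 hsum
    obtain ⟨Q3, h3⟩ := hRLS c T d hcol hT1 hT2 hsum
    fin_cases ρ
    · exact ⟨Q0, by simpa [rk] using h0⟩
    · exact ⟨Q1, by simpa [rk] using h1⟩
    · exact ⟨Q2, by simpa [rk] using h2⟩
    · exact ⟨Q3, by simpa [rk] using h3⟩
  have hrn : ∀ (ρ : Fin 4) (Q : (ι → ℂ) × (ι → ℂ)),
      finrank ℂ (LinearMap.range (roleS c T d ρ Q)) + finrank ℂ (LinearMap.ker (roleS c T d ρ Q)) =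
        finrank ℂ ↥(Sec c Finset.univ d) := fun ρ Q => LinearMap.finrank_range_add_finrank_ker _
  have hrkle : ∀ ρ : Fin 4, rk D ρ ≤ finrank ℂ ↥(Sec c Finset.univ d) := by
    intro ρ
    obtain ⟨Q, hQ⟩ := hex ρ
    have := hrn ρ Q
    omega
  have hgenr : ∀ γ : Fin g, Gen (fun Z : (Fin b → (ι → ℂ) × (ι → ℂ)) × (Fin g → (ι → ℂ) × (ι → ℂ)) =>
      finrank ℂ (LinearMap.ker (roleS c T d (role γ) (Z.2 γ))) ≤
        finrank ℂ ↥(Sec c Finset.univ d) - rk D (role γ)) := by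
    intro γ
    refine hGKR (fun Z : (Fin b → (ι → ℂ) × (ι → ℂ)) × (Fin g → (ι → ℂ) × (ι → ℂ)) =>
      roleS c T d (role γ) (Z.2 γ)) ?_ _ ?_
    · intro Z₀ Z₁ v o
      have h1 := hCPL c T d (L := Fin 0) (Γ := Fin g) (fun _ => false) role
        (fun _ => 0, Z₀.2) (fun _ => 0, Z₁.2) v (Sum.inr (γ, o))
      exact h1
    · obtain ⟨Q, hQ⟩ := hex (role γ)
      refine ⟨(fun _ => 0, fun _ => Q), ?_⟩
      have := hrn (role γ) Q
      change finrank ℂ (LinearMap.ker (roleS c T d (role γ) Q)) ≤ _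
      omega
  -- all generic properties at once
  set C : Option (Option (Fin g)) → ((Fin b → (ι → ℂ) × (ι → ℂ)) × (Fin g → (ι → ℂ) × (ι → ℂ))) →
      Prop := fun o => match o with
    | none => fun Z => finrank ℂ (Ker Φ Z.1 Z.2) ≤ dmin Φ b g
    | some none => fun Z => finrank ℂ (Ker Φ Z.1 (fun i : Fin 0 => i.elim0)) ≤ dmin Φ b 0
    | some (some γ) => fun Z => finrank ℂ (LinearMap.ker (roleS c T d (role γ) (Z.2 γ))) ≤
        finrank ℂ ↥(Sec c Finset.univ d) - rk D (role γ) with hC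
  have hgen : ∀ o, Gen (C o) := by
    intro o
    match o with
    | none => exact CM1_gen hGKR Φ hline b g
    | some none => exact CM1_gen0 hGKR Φ hline b g
    | some (some γ) => exact hgenr γ
  obtain ⟨⟨Z, hZ⟩, -⟩ := hGAL C hgen
  have hZ1 : finrank ℂ (Ker Φ Z.1 Z.2) ≤ dmin Φ b g := hZ none
  have hZ2 : finrank ℂ (Ker Φ Z.1 (fun i : Fin 0 => i.elim0)) ≤ dmin Φ b 0 := hZ (some none)
  have hZ3 : ∀ γ, finrank ℂ (LinearMap.ker (roleS c T d (role γ) (Z.2 γ))) ≤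
        finrank ℂ ↥(Sec c Finset.univ d) - rk D (role γ) := fun γ => hZ (some (some γ))
  set K : Submodule ℂ ↥(Sec c Finset.univ d) := ⨅ i, LinearMap.ker (Φ true (Z.1 i)) with hK
  have hK0 : Ker Φ Z.1 (fun i : Fin 0 => i.elim0) = K := by
    unfold Ker
    rw [iInf_of_empty (f := fun i : Fin 0 => LinearMap.ker (Φ false (i.elim0))), inf_top_eq]
  have hKe : Ker Φ Z.1 Z.2 = K ⊓ ⨅ γ, LinearMap.ker (Φ false (Z.2 γ)) := rfl
  rw [hK0] at hZ2
  rw [hKe] at hZ1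
  have hKge : dmin Φ b 0 ≤ finrank ℂ K := by
    rw [← hK0]
    exact dmin_le Φ _ _
  have hB : ∀ γ, finrank ℂ (LinearMap.range (Φ false (Z.2 γ))) ≤ N := by
    intro γ
    have h1 : finrank ℂ (LinearMap.range (Φ false (Z.2 γ))) +
        finrank ℂ (LinearMap.ker (Φ false (Z.2 γ))) = finrank ℂ ↥(Sec c Finset.univ d) :=
      LinearMap.finrank_range_add_finrank_ker _
    have h2 := dmin_le Φ (fun i : Fin 0 => i.elim0) (fun _ : Fin 1 => Z.2 γ)
    have h3 : Ker Φ (fun i : Fin 0 => i.elim0) (fun _ : Fin 1 => Z.2 γ) =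
        LinearMap.ker (Φ false (Z.2 γ)) := by
      unfold Ker
      rw [iInf_of_empty (f := fun i : Fin 0 => LinearMap.ker (Φ true (i.elim0))), top_inf_eq,
        iInf_const]
    rw [h3] at h2
    have h4 := (hRKB Φ).1
    rw [hN]
    unfold cc
    simp only [zero_add]
    omega
  have hfin := hEXT K (fun γ => Φ false (Z.2 γ)) (fun γ => roleS c T d (role γ) (Z.2 γ)) N hB
    (by
      rw [Fintype.card_fin]
      omega)
    (fun γ => hKIM c T d hd (role γ) (Z.2 γ))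
  refine ⟨Z.1, Z.2, ?_⟩
  have hsumle : ∑ γ, rk D (role γ) ≤
      ∑ γ, finrank ℂ (LinearMap.range (roleS c T d (role γ) (Z.2 γ))) := by
    refine Finset.sum_le_sum fun γ _ => ?_
    have h1 := hrn (role γ) (Z.2 γ)
    have h2 := hZ3 γ
    have h3 := hrkle (role γ)
    omega
  change finrank ℂ ↥(K ⊓ ⨅ γ, LinearMap.ker (roleS c T d (role γ) (Z.2 γ))) ≤
    finrank ℂ ↥(Sec c Finset.univ d) - b * D - ∑ γ, rk D (role γ)
  omega

end Pool.Agent.SG
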